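import Pool.Agent.Helper426_AR.MainAR

set_option autoImplicit false
open CategoryTheory Pool.Agent.Helper426AR Pool.Agent.Helper426Tach

namespace Pool.Agent.Results.MP_c0f807_al.BoundedBetti

/-- The Auslander-Reiten conjecture for modules of bounded syzygy type. Let R be a commutative
Noetherian local ring with a regular sequence x_1, ..., x_n such that R / (x_1, ..., x_n) is a
finite-dimensional algebra over a field (for instance a Cohen-Macaulay local ring containing a
field), and M a finitely generated R-module with Ext^i(M, R) = 0 = Ext^i(M, M) for all i ≥ 1.
Suppose that for some d infinitely many syzygies in some resolution of M by finitely generated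
projective modules are direct sums of modules generated by d elements (for instance infinitely many
Betti numbers of M are at most d). Then M is free. -/
theorem result (R : Type) [CommRing R] [IsNoetherianRing R] [IsLocalRing R] (hR : CMType R)
    (M : ModuleCat.{0} R) (hM : Module.Finite R M)
    (Z : ℕ → ModuleCat.{0} R) (h0 : Z 0 = M) (hZ : Chain Z)
    (d : ℕ) (hd : ∀ m : ℕ, ∃ j : ℕ, m ≤ j ∧ BddSum d (Z j))
    (hMR : ∀ i, 0 < i → Subsingleton (Abelian.Ext.{0} M (ModuleCat.of R R) i))
    (hMM : ∀ i, 0 < i → Subsingleton (Abelian.Ext.{0} M M i)) :
    Module.Free R M := by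
  subst h0
  have hp : Module.Projective R (Z 0) := ar_main hR Z hZ hM d hd hMM hMR
  exact Module.free_of_flat_of_isLocalRing

end Pool.Agent.Results.MP_c0f807_al.BoundedBetti
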