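import Pool.Agent.Helper426_AR.IT

set_option autoImplicit false
open CategoryTheory Pool.Agent.Helper426AR Pool.Agent.Helper426TauT

namespace Pool.Agent.Results.MP_c0f807_al.IgusaTodorovType

/-- The Auslander-Reiten conjecture for modules of Igusa-Todorov type over Cohen-Macaulay local
rings. Let R be a commutative Noetherian local ring and G_1, ..., G_N finitely generated R-modules
such that some sequence x_1, ..., x_n is regular on R and on all the G_a, and R / (x_1, ..., x_n)
is artinian (R is Cohen-Macaulay and the G_a are maximal Cohen-Macaulay). Let M be a finitely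
generated R-module with Ext^i(M, R) = 0 = Ext^i(M, M) for all i ≥ 1. Suppose that infinitely many
syzygies Z_j in some resolution of M by finitely generated projective modules have an exact
sequence 0 → V1 → V0 → Z_j → 0 with V1 and V0 finite direct sums of copies of the G_a. Then M is
free. -/
theorem result (R : Type) [CommRing R] [IsNoetherianRing R] [IsLocalRing R] (N : ℕ)
    (G : Fin N → ModuleCat.{0} R) (hG : ∀ a, Module.Finite R (G a)) (hR : CMOn R N G)
    (M : ModuleCat.{0} R) (hM : Module.Finite R M)
    (Z : ℕ → ModuleCat.{0} R) (h0 : Z 0 = M) (hZ : Chain Z)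
    (hd : ∀ m : ℕ, ∃ j : ℕ, m ≤ j ∧ TwoStep G (Z j))
    (hMR : ∀ i, 0 < i → Subsingleton (Abelian.Ext.{0} M (ModuleCat.of R R) i))
    (hMM : ∀ i, 0 < i → Subsingleton (Abelian.Ext.{0} M M i)) :
    Module.Free R M := by
  subst h0
  have hp : Module.Projective R (Z 0) := it_main hR hG Z hZ hM hd hMM hMR
  exact Module.free_of_flat_of_isLocalRing

end Pool.Agent.Results.MP_c0f807_al.IgusaTodorovType
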